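import Pool.Agent.H37.CNX.Stmts

/-!
# Row XPO of the board `cnx`: the choice of `F`
-/

set_option autoImplicit false

namespace Pool.CND

open Finset Matrix

namespace XPO

variable {p : ℕ} {k : Type} [Field k] [CharP k p]

/-- `F_p → k → k[X]` -/
noncomputable def cp (p : ℕ) (k : Type) [Field k] [CharP k p] : ZMod p →+* Polynomial k :=
  Polynomial.C.comp (ZMod.castHom (dvd_refl p) k)

theorem C_fp (a : ZMod p) : Polynomial.C (fp k a) = cp p k a := rfl

theorem mp_eq {n : ℕ} (S : Matrix (Fin n) (Fin n) (ZMod p)) : mp k S = S.map (cp p k) := rfl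

theorem vp_eq {n : ℕ} (v : Fin n → ZMod p) : vp k v = cp p k ∘ v := rfl

/-- the combination of the components -/
noncomputable def dt {n : ℕ} (ℓ : Fin n → ZMod p) (F : Fin n → Polynomial k) : Polynomial k :=
  ∑ i, cp p k (ℓ i) * F i

theorem dt_eq {n : ℕ} (ℓ : Fin n → ZMod p) (F : Fin n → Polynomial k) :
    dt ℓ F = (cp p k ∘ ℓ) ⬝ᵥ F := rfl

theorem dt_mulVec {n : ℕ} (ℓ : Fin n → ZMod p) (S : Matrix (Fin n) (Fin n) (ZMod p))
    (F : Fin n → Polynomial k) : dt ℓ (mp k S *ᵥ F) = dt (ℓ ᵥ* S) F := by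
  rw [dt_eq, dt_eq, dotProduct_mulVec, mp_eq]
  congr 1
  funext j
  exact (RingHom.map_vecMul (cp p k) S ℓ j).symm

theorem dt_add {n : ℕ} (ℓ : Fin n → ZMod p) (F F' : Fin n → Polynomial k) :
    dt ℓ (F + F') = dt ℓ F + dt ℓ F' := by
  rw [dt_eq, dt_eq, dt_eq, dotProduct_add]

theorem add_dt {n : ℕ} (ℓ ℓ' : Fin n → ZMod p) (F : Fin n → Polynomial k) :
    dt (ℓ + ℓ') F = dt ℓ F + dt ℓ' F := by
  unfold dt
  rw [← Finset.sum_add_distrib]
  refine Finset.sum_congr rfl fun i _ => ?_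
  rw [Pi.add_apply, map_add, add_mul]

theorem smul_dt {n : ℕ} (c : ZMod p) (ℓ : Fin n → ZMod p) (F : Fin n → Polynomial k) :
    dt (c • ℓ) F = cp p k c * dt ℓ F := by
  unfold dt
  rw [Finset.mul_sum]
  refine Finset.sum_congr rfl fun i _ => ?_
  rw [Pi.smul_apply, smul_eq_mul, map_mul, mul_assoc]

theorem cp_comp (a : ZMod p) (q : Polynomial k) : (cp p k a).comp q = cp p k a := by
  change (Polynomial.C _).comp q = Polynomial.C _
  rw [Polynomial.C_comp]

theorem dt_comp {n : ℕ} (ℓ : Fin n → ZMod p) (F : Fin n → Polynomial k) (q : Polynomial k) :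
    dt ℓ (fun i => (F i).comp q) = (dt ℓ F).comp q := by
  unfold dt
  rw [Polynomial.sum_comp]
  refine Finset.sum_congr rfl fun i _ => ?_
  rw [Polynomial.mul_comp, cp_comp]

theorem cp_pow (hp : p.Prime) (a : ZMod p) : cp p k a ^ p = cp p k a := by
  have : Fact p.Prime := ⟨hp⟩
  rw [← map_pow, ZMod.pow_card]

theorem cp_ne (hp : p.Prime) {a : ZMod p} (ha : a ≠ 0) : fp k a ≠ 0 := by
  have : Fact p.Prime := ⟨hp⟩
  exact (map_ne_zero (ZMod.castHom (dvd_refl p) k)).2 ha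

theorem dt_wp {n : ℕ} (hp : p.Prime) (ℓ : Fin n → ZMod p) (c : Fin n → Polynomial k) :
    dt ℓ (fun i => c i ^ p - c i) = dt ℓ c ^ p - dt ℓ c := by
  have : Fact p.Prime := ⟨hp⟩
  unfold dt
  rw [sum_pow_char, ← Finset.sum_sub_distrib]
  refine Finset.sum_congr rfl fun i _ => ?_
  rw [mul_pow, cp_pow hp, mul_sub]

/-- the relations -/
def Wsub {n : ℕ} (hp : p.Prime) (F : Fin n → Polynomial k) :
    Submodule (ZMod p) (Fin n → ZMod p) where
  carrier := {ℓ | ∃ r : Polynomial k, dt ℓ F = r ^ p - r}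
  add_mem' := by
    have : Fact p.Prime := ⟨hp⟩
    rintro ℓ ℓ' ⟨r, hr⟩ ⟨r', hr'⟩
    refine ⟨r + r', ?_⟩
    rw [add_dt, hr, hr', add_pow_char]
    ring
  zero_mem' := ⟨0, by
    unfold dt
    simp [hp.ne_zero]⟩
  smul_mem' := by
    rintro c ℓ ⟨r, hr⟩
    refine ⟨cp p k c * r, ?_⟩
    rw [smul_dt, hr, mul_pow, cp_pow hp, mul_sub]

theorem mem_Wsub {n : ℕ} (hp : p.Prime) (F : Fin n → Polynomial k) (ℓ : Fin n → ZMod p) :
    ℓ ∈ Wsub hp F ↔ ∃ r : Polynomial k, dt ℓ F = r ^ p - r := Iff.rfl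

theorem fixed_vec {G : Type} [Group G] [Finite G] {n : ℕ} (hp : p.Prime) (hG : IsPGroup p G)
    (S : G → Matrix (Fin n) (Fin n) (ZMod p)) (hS : ∀ g h, S (g * h) = S h * S g) (h1 : S 1 = 1)
    (W : Submodule (ZMod p) (Fin n → ZMod p)) (hW : ∀ g, ∀ ℓ ∈ W, ℓ ᵥ* S g ∈ W)
    (hne : ∃ ℓ ∈ W, ℓ ≠ 0) : ∃ ℓ ∈ W, ℓ ≠ 0 ∧ ∀ g, ℓ ᵥ* S g = ℓ := by
  have : Fact p.Prime := ⟨hp⟩
  let _ : MulAction G W :=
    { smul := fun g ℓ => ⟨(ℓ : Fin n → ZMod p) ᵥ* S g, hW g ℓ ℓ.2⟩
      one_smul := fun ℓ => Subtype.ext (by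
        change (ℓ : Fin n → ZMod p) ᵥ* S 1 = ℓ
        rw [h1, vecMul_one])
      mul_smul := fun g h ℓ => Subtype.ext (by
        change (ℓ : Fin n → ZMod p) ᵥ* S (g * h) = ((ℓ : Fin n → ZMod p) ᵥ* S h) ᵥ* S g
        rw [hS, vecMul_vecMul]) }
  have hfix : (0 : W) ∈ MulAction.fixedPoints G W := by
    intro g
    refine Subtype.ext ?_
    change (0 : Fin n → ZMod p) ᵥ* S g = 0
    rw [zero_vecMul]
  have hcard : p ∣ Nat.card W := by
    obtain ⟨ℓ, hℓ, hℓ0⟩ := hne
    have h2 : addOrderOf (⟨ℓ, hℓ⟩ : W) = p := by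
      refine addOrderOf_eq_prime ?_ ?_
      · refine Subtype.ext ?_
        funext i
        change (p • ℓ) i = 0
        rw [Pi.smul_apply, nsmul_eq_mul, CharP.cast_eq_zero, zero_mul]
      · intro h
        exact hℓ0 (congrArg Subtype.val h)
    have h3 := addOrderOf_dvd_natCard (⟨ℓ, hℓ⟩ : W)
    rwa [h2] at h3
  obtain ⟨b, hb, hb0⟩ := hG.exists_fixed_point_of_prime_dvd_card_of_fixed_point W hcard hfix
  refine ⟨b, b.2, fun h => hb0 (Subtype.ext h.symm), fun g => ?_⟩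
  exact congrArg Subtype.val (hb g)


/-! ### the group data -/

section data

variable {G : Type} [Group G] {M : Subgroup G} {n : ℕ}
  {φ : M ≃* Multiplicative (Fin n → ZMod p)} {S : G → Matrix (Fin n) (Fin n) (ZMod p)} {ι : G → k}

theorem ι_one (h : XD M n φ S ι) : ι 1 = 0 := (h.ι_ker 1).2 M.one_mem

theorem ι_inv (h : XD M n φ S ι) (g : G) : ι g⁻¹ = -ι g := by
  have h1 := h.ι_mul g g⁻¹
  rw [mul_inv_cancel, ι_one h] at h1
  linear_combination -h1

theorem S_congr (h : XD M n φ S ι) {g g' : G} (he : ι g = ι g') : S g = S g' := by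
  have h1 : g * g'⁻¹ ∈ M := by
    rw [← h.ι_ker, h.ι_mul, ι_inv h, he, add_neg_cancel]
  have h2 : g = g * g'⁻¹ * g' := by group
  rw [h2, h.S_mul, h.S_one _ h1, mul_one]

theorem ι_pow (h : XD M n φ S ι) (g : G) (m : ℕ) : ι (g ^ m) = m * ι g := by
  induction m with
  | zero => rw [pow_zero, ι_one h, Nat.cast_zero, zero_mul]
  | succ m ih => rw [pow_succ, h.ι_mul, ih]; push_cast; ring

theorem isPGroup (h : XD M n φ S ι) : IsPGroup p G := by
  intro g
  refine ⟨2, ?_⟩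
  have h1 : g ^ p ∈ M := by
    rw [← h.ι_ker, ι_pow h, CharP.cast_eq_zero, zero_mul]
  have h2 : (⟨g ^ p, h1⟩ : M) ^ p = 1 := by
    apply φ.injective
    rw [map_pow, map_one]
    apply Multiplicative.toAdd.injective
    rw [toAdd_pow]
    funext i
    change (p • Multiplicative.toAdd (φ ⟨g ^ p, h1⟩)) i = 0
    rw [Pi.smul_apply, nsmul_eq_mul, CharP.cast_eq_zero, zero_mul]
  have h3 := congrArg Subtype.val h2
  change (g ^ p) ^ p = 1 at h3
  rw [pow_two, pow_mul, h3]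

/-- the inverse of `S`, as a function of the value of `ι` -/
noncomputable def T (S : G → Matrix (Fin n) (Fin n) (ZMod p)) (ι : G → k) (v : k) :
    Matrix (Fin n) (Fin n) (ZMod p) :=
  open scoped Classical in if h : ∃ g, ι g = v then S (h.choose)⁻¹ else 0

theorem T_eq (h : XD M n φ S ι) (g : G) : T S ι (ι g) = S g⁻¹ := by
  have h1 : ∃ g', ι g' = ι g := ⟨g, rfl⟩
  unfold T
  rw [dif_pos h1]
  apply S_congr h
  rw [ι_inv h, ι_inv h, h1.choose_spec]

theorem vec_T (h : XD M n φ S ι) {ℓ : Fin n → ZMod p} (hℓ : ∀ g, ℓ ᵥ* S g = ℓ) (g : G) :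
    ℓ ᵥ* T S ι (ι g) = ℓ := by
  rw [T_eq h, hℓ]

variable [Finite G]

/-- the columns of `R` -/
noncomputable def Rc (S : G → Matrix (Fin n) (Fin n) (ZMod p)) (ι : G → k) (θ : Polynomial k)
    (i j : Fin n) : Polynomial k :=
  ∑ v ∈ (Set.finite_range ι).toFinset,
    cp p k (T S ι v j i) * θ.comp (Polynomial.X + Polynomial.C v)

theorem Rc_comp (h : XD M n φ S ι) (θ : Polynomial k) (i : Fin n) (g : G) :
    (fun j => (Rc S ι θ i j).comp (Polynomial.X + Polynomial.C (ι g))) =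
      mp k (S g) *ᵥ Rc S ι θ i := by
  funext j
  unfold Rc
  rw [Polynomial.sum_comp]
  change _ = ∑ l, cp p k (S g j l) * ∑ v ∈ (Set.finite_range ι).toFinset, _
  simp_rw [Finset.mul_sum]
  rw [Finset.sum_comm]
  refine Finset.sum_bij' (fun v _ => v + ι g) (fun v _ => v - ι g) ?_ ?_ ?_ ?_ ?_
  · intro v hv
    rw [Set.Finite.mem_toFinset] at hv ⊢
    obtain ⟨g', rfl⟩ := hv
    exact ⟨g' * g, h.ι_mul g' g⟩
  · intro v hv
    rw [Set.Finite.mem_toFinset] at hv ⊢
    obtain ⟨g', rfl⟩ := hv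
    exact ⟨g' * g⁻¹, by rw [h.ι_mul, ι_inv h, sub_eq_add_neg]⟩
  · intro v _
    ring
  · intro v _
    ring
  · intro v hv
    rw [Set.Finite.mem_toFinset] at hv
    obtain ⟨g', rfl⟩ := hv
    have h1 : T S ι (ι g') = S g * T S ι (ι g' + ι g) := by
      rw [← h.ι_mul, T_eq h, T_eq h, ← h.S_mul]
      apply S_congr h
      rw [h.ι_mul, ι_inv h, ι_inv h, h.ι_mul]
      ring
    have h2 : (θ.comp (Polynomial.X + Polynomial.C (ι g'))).comp
        (Polynomial.X + Polynomial.C (ι g)) =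
        θ.comp (Polynomial.X + Polynomial.C (ι g' + ι g)) := by
      rw [Polynomial.comp_assoc]
      congr 1
      rw [Polynomial.add_comp, Polynomial.X_comp, Polynomial.C_comp, map_add]
      ring
    rw [Polynomial.mul_comp, cp_comp, h2, h1, Matrix.mul_apply, map_sum, Finset.sum_mul]
    refine Finset.sum_congr rfl fun l _ => ?_
    rw [map_mul, mul_assoc]

theorem dt_Rc (h : XD M n φ S ι) {θ : Polynomial k}
    (hθ : ∑ v ∈ (Set.finite_range ι).toFinset,
      θ.comp (Polynomial.X + Polynomial.C v) = 1) {ℓ : Fin n → ZMod p}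
    (hℓ : ∀ g, ℓ ᵥ* S g = ℓ) (i : Fin n) : dt ℓ (Rc S ι θ i) = cp p k (ℓ i) := by
  unfold dt Rc
  simp_rw [Finset.mul_sum]
  rw [Finset.sum_comm]
  have h1 : ∀ v ∈ (Set.finite_range ι).toFinset,
      ∑ j, cp p k (ℓ j) * (cp p k (T S ι v j i) * θ.comp (Polynomial.X + Polynomial.C v)) =
        cp p k (ℓ i) * θ.comp (Polynomial.X + Polynomial.C v) := by
    intro v hv
    rw [Set.Finite.mem_toFinset] at hv
    obtain ⟨g', rfl⟩ := hv
    have h2 := congrFun (vec_T h hℓ g') i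
    change ∑ j, ℓ j * T S ι (ι g') j i = ℓ i at h2
    conv_rhs => rw [← h2, map_sum, Finset.sum_mul]
    refine Finset.sum_congr rfl fun j _ => ?_
    rw [map_mul, mul_assoc]
  rw [Finset.sum_congr rfl h1, ← Finset.mul_sum, hθ, mul_one]

end data

/-! ### linearity and degrees -/

theorem dt_mul_left {n : ℕ} (ℓ : Fin n → ZMod p) (B : Polynomial k) (f : Fin n → Polynomial k) :
    dt ℓ (fun j => B * f j) = B * dt ℓ f := by
  unfold dt
  rw [Finset.mul_sum]
  refine Finset.sum_congr rfl fun i _ => ?_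
  ring

theorem dt_sum {n : ℕ} {α : Type} (s : Finset α) (ℓ : Fin n → ZMod p)
    (f : α → Fin n → Polynomial k) : dt ℓ (fun j => ∑ i ∈ s, f i j) = ∑ i ∈ s, dt ℓ (f i) := by
  unfold dt
  simp_rw [Finset.mul_sum]
  rw [Finset.sum_comm]

theorem dt_add' {n : ℕ} (ℓ : Fin n → ZMod p) (F F' : Fin n → Polynomial k) :
    dt ℓ (fun j => F j + F' j) = dt ℓ F + dt ℓ F' := dt_add ℓ F F'

theorem dt_C {n : ℕ} (ℓ : Fin n → ZMod p) (w : Fin n → k) :
    dt ℓ (fun j => Polynomial.C (w j)) = Polynomial.C (∑ j, fp k (ℓ j) * w j) := by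
  unfold dt
  rw [map_sum]
  refine Finset.sum_congr rfl fun i _ => ?_
  rw [map_mul]
  rfl

theorem dt_cp {n : ℕ} (ℓ zv : Fin n → ZMod p) :
    dt ℓ (fun j => cp p k (zv j)) = Polynomial.C (fp k (ℓ ⬝ᵥ zv)) := by
  rw [C_fp]
  unfold dt dotProduct
  rw [map_sum]
  refine Finset.sum_congr rfl fun i _ => ?_
  rw [map_mul]

theorem natDegree_cp_mul (c : ZMod p) (f : Polynomial k) :
    (cp p k c * f).natDegree ≤ f.natDegree := Polynomial.natDegree_C_mul_le _ _

theorem natDegree_dt {n : ℕ} (ℓ : Fin n → ZMod p) (F : Fin n → Polynomial k) {N : ℕ}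
    (hN : ∀ j, (F j).natDegree ≤ N) : (dt ℓ F).natDegree ≤ N :=
  Polynomial.natDegree_sum_le_of_forall_le _ _
    fun j _ => (natDegree_cp_mul _ _).trans (hN j)

theorem natDegree_Rc {G : Type} [Group G] [Finite G] {n : ℕ}
    (S : G → Matrix (Fin n) (Fin n) (ZMod p)) (ι : G → k) (θ : Polynomial k) (i j : Fin n) :
    (Rc S ι θ i j).natDegree ≤ θ.natDegree := by
  refine Polynomial.natDegree_sum_le_of_forall_le _ _ fun v _ => ?_
  refine (natDegree_cp_mul _ _).trans ?_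
  rw [Polynomial.natDegree_comp, Polynomial.natDegree_X_add_C, mul_one]

theorem natDegree_A {d : ℕ} (e : ℕ → k) (hp : p.Prime) :
    (∑ j ∈ range (d + 1), Polynomial.C (e j) * Polynomial.X ^ (p ^ j)).natDegree ≤ p ^ d := by
  refine Polynomial.natDegree_sum_le_of_forall_le _ _ fun j hj => ?_
  rw [Finset.mem_range] at hj
  exact (Polynomial.natDegree_C_mul_X_pow_le _ _).trans
    (Nat.pow_le_pow_right hp.pos (by omega))

theorem natDegree_A_pow_mul {A f : Polynomial k} {Q a b : ℕ} (hA : A.natDegree ≤ Q)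
    (hf : f.natDegree ≤ b) : (A ^ a * f).natDegree ≤ a * Q + b := by
  refine Polynomial.natDegree_mul_le.trans (add_le_add ?_ hf)
  exact Polynomial.natDegree_pow_le.trans (Nat.mul_le_mul_left a hA)

end XPO

open XPO in
/-- the choice of `F` -/
theorem xpo_thm (hCO : S_XCO) (hAP : S_XAP) (hTH : S_XTH) (hT1 : S_XT1) (hT2 : S_XT2)
    (hRD : S_XRD) : S_XPO := by
  intro p d k G _ _ _ _ _ M n φ S ι zv w hp hp2 hd hcard hX hzv hw
  have : Fact p.Prime := ⟨hp⟩
  obtain ⟨C, F0, hC⟩ := hCO p k G M n φ S ι hp hX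
  obtain ⟨d', e, hd', hed, he0, hA, hAinv⟩ := hAP p k G ι hp inferInstance hX.ι_mul
  have hdd : d' = d := Nat.pow_right_injective hp.two_le (by
    change p ^ d' = p ^ d
    rw [← hd', hcard])
  subst hdd
  obtain ⟨θ, hθd, -, hθ⟩ := hTH p k G ι hp inferInstance hX.ι_mul
  obtain ⟨A, hAdef⟩ : ∃ A, A = Apol ι := ⟨_, rfl⟩
  rw [← hAdef] at hA hAinv
  obtain ⟨N0, hN0⟩ : ∃ N0 : ℕ, ∀ j, (F0 j).natDegree ≤ N0 :=
    ⟨∑ j, (F0 j).natDegree, fun j =>
      Finset.single_le_sum (f := fun j => (F0 j).natDegree) (fun _ _ => Nat.zero_le _)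
        (Finset.mem_univ j)⟩
  obtain ⟨a, ha⟩ : ∃ a : Fin n → ℕ, ∀ i, a i = p * (N0 + 3 + i) + 1 := ⟨_, fun i => rfl⟩
  have hQ : 1 ≤ p ^ d' := Nat.one_le_pow _ _ hp.pos
  have hAdeg : A.natDegree ≤ p ^ d' := by
    rw [hA]
    exact natDegree_A e hp
  refine ⟨C, p * (N0 + 3 + n) + 3, fun m hm hpm hpm1 => ?_⟩
  have ham : ∀ i, a i + 2 ≤ m := by
    intro i
    rw [ha]
    have h1 : p * (N0 + 3 + i) ≤ p * (N0 + 3 + n) := Nat.mul_le_mul_left p (by omega)
    omega
  have hNm : N0 + 6 ≤ m := by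
    have h1 : 1 * (N0 + 3 + n) ≤ p * (N0 + 3 + n) := Nat.mul_le_mul_right _ hp.one_lt.le
    omega
  obtain ⟨B, hB⟩ : ∃ B : Polynomial k, B = Polynomial.X * A ^ m +
    Polynomial.C (-1 / (((m + 1 : ℕ) : k) * e 0)) * A ^ (m + 1) := ⟨_, rfl⟩
  obtain ⟨F, hF⟩ : ∃ F : Fin n → Polynomial k, F = fun j =>
      F0 j + ∑ i, A ^ a i * Rc S ι θ i j + A ^ m * Polynomial.C (w j) + B * cp p k (zv j) :=
    ⟨_, rfl⟩
  have hdt : ∀ ℓ : Fin n → ZMod p, dt ℓ F = dt ℓ F0 + ∑ i, A ^ a i * dt ℓ (Rc S ι θ i) +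
      A ^ m * Polynomial.C (∑ j, fp k (ℓ j) * w j) + B * Polynomial.C (fp k (ℓ ⬝ᵥ zv)) := by
    intro ℓ
    rw [hF, dt_add', dt_add', dt_add', dt_sum, dt_mul_left, dt_mul_left, dt_C, dt_cp]
    simp_rw [dt_mul_left]
  have hXC : XC M n φ S ι C F := by
    refine ⟨hC.C_M, hC.C_mul, fun g => ?_⟩
    have h0 := hC.F_eq g
    have hR := fun i => Rc_comp hX θ i g
    obtain ⟨hz, hww⟩ := hw g
    funext j
    have h1 : (mp k (S g) *ᵥ F) j = dt (S g j) F := rfl
    have h2 : (F0 j).comp (Polynomial.X + Polynomial.C (ι g)) =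
        dt (S g j) F0 + (C g j ^ p - C g j) := congrFun h0 j
    have h3 : ∀ i, (Rc S ι θ i j).comp (Polynomial.X + Polynomial.C (ι g)) =
        dt (S g j) (Rc S ι θ i) := fun i => congrFun (hR i) j
    have h4 : S g j ⬝ᵥ zv = zv j := congrFun hz j
    have hAi := hAinv g
    change (F j).comp (Polynomial.X + Polynomial.C (ι g)) =
      (mp k (S g) *ᵥ F) j + (C g j ^ p - C g j)
    rw [h1, hdt, hww j, h4, hF, hB]
    simp only [Polynomial.add_comp, Polynomial.mul_comp, Polynomial.pow_comp, Polynomial.X_comp,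
      Polynomial.C_comp, Polynomial.sum_comp, h2, h3, hAi, cp_comp, map_add, map_mul, C_fp]
    ring
  refine ⟨F, hXC, ?_⟩
  -- the relations are trivial
  have hind : ∀ ℓ : Fin n → ZMod p, ℓ ≠ 0 → ∀ r : Polynomial k, dt ℓ F ≠ r ^ p - r := by
    intro ℓ0 hℓ0 r0 hr0
    obtain ⟨ℓ, ⟨r, hr⟩, hℓ, hfix⟩ := fixed_vec hp (isPGroup hX) S hX.S_mul
      (hX.S_one 1 M.one_mem) (Wsub hp F) (by
        rintro g ℓ ⟨r, hr⟩
        refine ⟨r.comp (Polynomial.X + Polynomial.C (ι g)) - dt ℓ (C g), ?_⟩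
        have h1 := dt_comp ℓ F (Polynomial.X + Polynomial.C (ι g))
        rw [hXC.F_eq g, dt_add, dt_mulVec, dt_wp hp, hr, Polynomial.sub_comp,
          Polynomial.pow_comp] at h1
        rw [sub_pow_char]
        linear_combination h1) ⟨ℓ0, ⟨r0, hr0⟩, hℓ0⟩
    have hR : ∀ i, dt ℓ (Rc S ι θ i) = cp p k (ℓ i) := fun i => dt_Rc hX hθ hfix i
    have hzero : fp k (ℓ ⬝ᵥ zv) = 0 := by
      obtain ⟨g, hg⟩ : ∃ g, ι g ≠ 0 := by
        by_contra hcon
        push Not at hcon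
        have h1 : Set.range ι = {0} := by
          ext v
          constructor
          · rintro ⟨g, rfl⟩
            exact hcon g
          · intro hv
            exact ⟨1, by rw [hcon 1]; exact hv.symm⟩
        rw [h1, Nat.card_unique] at hcard
        have h2 := Nat.one_lt_pow (by omega : d' ≠ 0) hp.one_lt
        omega
      have h1 : ∑ i, fp k (ℓ i) * w i = ∑ i, fp k (ℓ i) * (w i + ι g * fp k (zv i)) := by
        have h2 : ∀ i, w i + ι g * fp k (zv i) = ∑ j, fp k (S g i j) * w j :=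
          fun i => ((hw g).2 i).symm
        simp_rw [h2, Finset.mul_sum]
        rw [Finset.sum_comm]
        refine Finset.sum_congr rfl fun j _ => ?_
        have h3 := congrFun (hfix g) j
        change ∑ i, ℓ i * S g i j = ℓ j at h3
        rw [← h3]
        change ZMod.castHom (dvd_refl p) k _ * _ = _
        rw [map_sum, Finset.sum_mul]
        refine Finset.sum_congr rfl fun i _ => ?_
        rw [map_mul, mul_assoc]
        rfl
      have h2 : ι g * fp k (ℓ ⬝ᵥ zv) = 0 := by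
        have h3 : fp k (ℓ ⬝ᵥ zv) = ∑ i, fp k (ℓ i) * fp k (zv i) := by
          change ZMod.castHom (dvd_refl p) k (∑ i, ℓ i * zv i) = _
          rw [map_sum]
          refine Finset.sum_congr rfl fun i _ => ?_
          rw [map_mul]
          rfl
        rw [h3, Finset.mul_sum]
        have h4 : ∑ i, fp k (ℓ i) * (w i + ι g * fp k (zv i)) =
            ∑ i, fp k (ℓ i) * w i + ∑ i, ι g * (fp k (ℓ i) * fp k (zv i)) := by
          rw [← Finset.sum_add_distrib]
          refine Finset.sum_congr rfl fun i _ => ?_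
          ring
        rw [h4] at h1
        linear_combination -h1
      exact (mul_eq_zero.1 h2).resolve_left hg
    have hFℓ := hdt ℓ
    rw [hzero, map_zero, mul_zero, add_zero] at hFℓ
    simp_rw [hR] at hFℓ
    obtain ⟨α, hα⟩ : ∃ α : k, α = ∑ j, fp k (ℓ j) * w j := ⟨_, rfl⟩
    rw [← hα] at hFℓ
    by_cases hα0 : α = 0
    · -- the largest index
      have hne : (Finset.univ.filter fun i => ℓ i ≠ 0).Nonempty := by
        by_contra hcon
        rw [Finset.not_nonempty_iff_eq_empty, Finset.filter_eq_empty_iff] at hcon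
        exact hℓ (funext fun i => not_not.1 (hcon (Finset.mem_univ i)))
      obtain ⟨i0, hi0, hmax⟩ := Finset.exists_max_image _ (fun i : Fin n => (i : ℕ)) hne
      rw [Finset.mem_filter] at hi0
      refine hT1 p d' k e (a i0) (fp k (ℓ i0))
        (dt ℓ F0 + ∑ i ∈ Finset.univ.erase i0, A ^ a i * cp p k (ℓ i)) A hp hed he0 hA hd
        ?_ ?_ (cp_ne hp hi0.2) ?_ r ?_
      · rw [ha]
        have h1 : 1 * (N0 + 3 + i0) ≤ p * (N0 + 3 + i0) := Nat.mul_le_mul_right _ hp.one_lt.le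
        omega
      · rw [ha]
        intro h1
        exact hp.one_lt.ne' (Nat.dvd_one.1 ((Nat.dvd_add_right (Dvd.intro _ rfl)).1 h1))
      · have hi0a : N0 + 1 ≤ a i0 := by
          rw [ha]
          have h1 : 1 * (N0 + 3 + i0) ≤ p * (N0 + 3 + i0) := Nat.mul_le_mul_right _ hp.one_lt.le
          omega
        refine Nat.lt_succ_of_le ((Polynomial.natDegree_add_le _ _).trans (max_le ?_ ?_))
        · refine (natDegree_dt ℓ F0 hN0).trans ?_
          calc N0 ≤ a i0 - 1 := by omega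
            _ = 1 * (a i0 - 1) := (one_mul _).symm
            _ ≤ p ^ d' * (a i0 - 1) := Nat.mul_le_mul_right _ hQ
        · refine Polynomial.natDegree_sum_le_of_forall_le _ _ fun i hi => ?_
          by_cases hi1 : ℓ i = 0
          · rw [hi1, map_zero, mul_zero, Polynomial.natDegree_zero]
            exact Nat.zero_le _
          have h1 : (i : ℕ) ≤ i0 := hmax i (Finset.mem_filter.2 ⟨Finset.mem_univ _, hi1⟩)
          have h2 : i ≠ i0 := (Finset.mem_erase.1 hi).1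
          have h3 : (i : ℕ) < i0 := lt_of_le_of_ne h1 (fun h => h2 (Fin.ext h))
          have h4 : a i + 1 ≤ a i0 := by
            rw [ha, ha]
            have h5 : p * (N0 + 3 + i) + p * 1 ≤ p * (N0 + 3 + i0) := by
              rw [← mul_add]
              exact Nat.mul_le_mul_left p (by omega)
            have h6 := hp.one_lt
            omega
          calc (A ^ a i * cp p k (ℓ i)).natDegree ≤ a i * p ^ d' + 0 :=
                natDegree_A_pow_mul hAdeg (Polynomial.natDegree_C _).le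
            _ = p ^ d' * a i := by ring
            _ ≤ p ^ d' * (a i0 - 1) := Nat.mul_le_mul_left _ (by omega)
      · rw [← hr, hFℓ, hα0, map_zero, mul_zero, add_zero,
          ← Finset.add_sum_erase _ _ (Finset.mem_univ i0), C_fp]
        ring
    · refine hT1 p d' k e m α (dt ℓ F0 + ∑ i, A ^ a i * cp p k (ℓ i)) A hp hed he0 hA hd
        (by omega) hpm hα0 ?_ r ?_
      · refine Nat.lt_succ_of_le ((Polynomial.natDegree_add_le _ _).trans (max_le ?_ ?_))
        · refine (natDegree_dt ℓ F0 hN0).trans ?_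
          calc N0 ≤ m - 1 := by omega
            _ = 1 * (m - 1) := (one_mul _).symm
            _ ≤ p ^ d' * (m - 1) := Nat.mul_le_mul_right _ hQ
        · refine Polynomial.natDegree_sum_le_of_forall_le _ _ fun i _ => ?_
          calc (A ^ a i * cp p k (ℓ i)).natDegree ≤ a i * p ^ d' + 0 :=
                natDegree_A_pow_mul hAdeg (Polynomial.natDegree_C _).le
            _ = p ^ d' * a i := by ring
            _ ≤ p ^ d' * (m - 1) := Nat.mul_le_mul_left _ (by have := ham i; omega)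
      · rw [← hr, hFℓ]
        ring
  intro ℓ hℓ
  change ∃ (D : ℕ) (r : Polynomial k), 1 ≤ D ∧ ¬ p ∣ D ∧ (dt ℓ F - (r ^ p - r)).natDegree = D ∧
      (ℓ ⬝ᵥ zv ≠ 0 → D = p ^ d' * (m - 1) + 2)
  by_cases hβ : ℓ ⬝ᵥ zv = 0
  · rcases hRD p k (dt ℓ F) hp with ⟨r, hr⟩ | ⟨D, r, h1, h2, h3⟩
    · exact absurd hr (hind ℓ hℓ r)
    · exact ⟨D, r, h1, h2, h3, fun h => absurd hβ h⟩
  · obtain ⟨r, hr⟩ := hT2 p d' k e m (∑ j, fp k (ℓ j) * w j) (fp k (ℓ ⬝ᵥ zv))
      (dt ℓ F0 + ∑ i, A ^ a i * dt ℓ (Rc S ι θ i)) A hp hp2 hed he0 hA hd (by omega) hpm hpm1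
      (cp_ne hp hβ) (by
        refine lt_of_le_of_lt (Polynomial.natDegree_add_le _ _) (max_lt ?_ ?_)
        · refine lt_of_le_of_lt (natDegree_dt ℓ F0 hN0) ?_
          calc N0 < m - 1 + 2 := by omega
            _ = 1 * (m - 1) + 2 := by rw [one_mul]
            _ ≤ p ^ d' * (m - 1) + 2 := Nat.add_le_add_right (Nat.mul_le_mul_right _ hQ) 2
        · refine lt_of_le_of_lt (Polynomial.natDegree_sum_le_of_forall_le _ _
            (n := p ^ d' * (m - 1)) fun i _ => ?_) (by omega)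
          calc (A ^ a i * dt ℓ (Rc S ι θ i)).natDegree ≤ a i * p ^ d' + p ^ d' := by
                refine natDegree_A_pow_mul hAdeg (natDegree_dt ℓ _ fun j => ?_)
                refine (natDegree_Rc S ι θ i j).trans ?_
                rw [← hd']
                exact hθd.le
            _ = p ^ d' * (a i + 1) := by ring
            _ ≤ p ^ d' * (m - 1) := Nat.mul_le_mul_left _ (by have := ham i; omega))
    refine ⟨p ^ d' * (m - 1) + 2, r, by omega, ?_, ?_, fun _ => rfl⟩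
    · intro h1
      have h2 : p ∣ p ^ d' * (m - 1) := Dvd.dvd.mul_right (dvd_pow_self p (by omega)) _
      have h3 := (Nat.dvd_add_right h2).1 h1
      exact hp2 ((Nat.prime_dvd_prime_iff_eq hp Nat.prime_two).1 h3)
    · rw [← hr, hdt, hB]
      congr 2
      ring

end Pool.CND
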